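import Pool.Agent.H74.EulZc

/-!
# Sign and growth of the Euler characteristic of the minimal strata

`chi g` is the rational number given by the published formulas for the orbifold Euler
characteristic of the minimal stratum `M_g(2g-1)`; see `Pool.Agent.H74.EulerDefs`, where every
definition is explained.
-/

namespace Pool.Agent.Results.MP_d717c6_ag.SignAndGrowth

open Pool.Agent.H74.Strata

/-- For every `g >= 1`, the number `chi g` is `-2 (2g-1)! / (2g-1)^2` times the coefficient of
`x^(2g+1)` in `x / log(1+x)` (the Gregory coefficient `G_(2g+1)`); it is negative; and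
`A (2g-1)! / (2g-1)^4 <= -chi g <= B (2g-1)! / (2g-1)^3` with positive constants `A` and `B`.
(The power series inverted below is `log(1+x)/x`.) -/
theorem result :
    (∀ g : ℕ, 1 ≤ g → chi g = -(2 * (2 * g - 1).factorial / (2 * g - 1) ^ 2) *
      PowerSeries.coeff (2 * g + 1) (PowerSeries.mk fun n => ((-1) ^ n / (n + 1) : ℚ))⁻¹) ∧
    (∀ g : ℕ, 1 ≤ g → chi g < 0) ∧
    ∃ A B : ℝ, 0 < A ∧ 0 < B ∧ ∀ g : ℕ, 1 ≤ g →
      A * ((2 * g - 1).factorial / (2 * g - 1) ^ 4) ≤ -(chi g : ℝ) ∧
      -(chi g : ℝ) ≤ B * ((2 * g - 1).factorial / (2 * g - 1) ^ 3) :=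
  main

end Pool.Agent.Results.MP_d717c6_ag.SignAndGrowth
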